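import Pool.Agent.P.MP_47d067_lc.SimA

set_option autoImplicit false

namespace Pool.Agent.Results.MP_47d067_lc.Q1

open Pool.Agent.P.MP_47d067_lc

/-- There is a deterministic context-free language accepted by no deterministic forgetting
automaton with the operations move right, erase left and erase right. -/
theorem result : ∃ (A : Type) (_ : Fintype A) (L : Language A),
    IsDCFL L ∧ ¬ DetForg {Op.mvR, Op.erL, Op.erR} L :=
  ⟨Letter (Fin 262176), inferInstance, witness 0, witness_isDCFL 0,
    not_detForg_A (by simp) 0⟩

end Pool.Agent.Results.MP_47d067_lc.Q1
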