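import Pool.Agent.P.MP_47d067_lc.SimB

set_option autoImplicit false

namespace Pool.Agent.Results.MP_47d067_lc.Q2

open Pool.Agent.P.MP_47d067_lc

/-- There is a deterministic context-free language accepted by no deterministic forgetting
automaton with the operations move right, erase right, delete left and delete right. -/
theorem result : ∃ (A : Type) (_ : Fintype A) (L : Language A),
    IsDCFL L ∧ ¬ DetForg {Op.mvR, Op.erR, Op.dlL, Op.dlR} L :=
  ⟨Letter (Fin 262176), inferInstance, witness 0, witness_isDCFL 0,
    not_detForg_B (by simp) 0⟩

end Pool.Agent.Results.MP_47d067_lc.Q2
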